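import Mathlib

set_option autoImplicit false

/-!
Over every field `F` there is a four-dimensional unital (nonassociative) algebra with basis
`1, r, α, β` and products `r r = α`, `α r = β` (all other products of `r, α, β` being zero) which is
left `N`-essential and not right `N`-essential.
-/

namespace Pool.Agent.Results.MP_0af3ab_al.LeftNotRight

universe u

/-- The associative center (nucleus) of a unital not necessarily associative ring. -/
def nucleus (R : Type u) [NonAssocRing R] : Set R :=
  {x | ∀ a b : R, (x * a) * b = x * (a * b) ∧ (a * x) * b = a * (x * b) ∧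
    (a * b) * x = a * (b * x)}

/-- `N(R) r ∩ N(R) ≠ 0` for every nonzero `r`. -/
def LeftNEssential (R : Type u) [NonAssocRing R] : Prop :=
  ∀ r : R, r ≠ 0 → ∃ x ∈ nucleus R, x * r ∈ nucleus R ∧ x * r ≠ 0

/-- `r N(R) ∩ N(R) ≠ 0` for every nonzero `r`. -/
def RightNEssential (R : Type u) [NonAssocRing R] : Prop :=
  ∀ r : R, r ≠ 0 → ∃ x ∈ nucleus R, r * x ∈ nucleus R ∧ r * x ≠ 0

/-- The four-dimensional algebra. The coordinates are those with respect to `1, r, α, β`. -/
def Alg (F : Type u) : Type u := F × F × F × F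

variable (F : Type u) [Field F]

instance : AddCommGroup (Alg F) := inferInstanceAs (AddCommGroup (F × F × F × F))

instance : Module F (Alg F) := inferInstanceAs (Module F (F × F × F × F))

variable {F}

/-- The element with given coordinates. -/
def mk (a b c d : F) : Alg F := (a, b, c, d)

/-- The first coordinate. -/
def Alg.a (x : Alg F) : F := x.1

/-- The second coordinate. -/
def Alg.b (x : Alg F) : F := x.2.1

/-- The third coordinate. -/
def Alg.c (x : Alg F) : F := x.2.2.1

/-- The fourth coordinate. -/
def Alg.d (x : Alg F) : F := x.2.2.2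

@[simp] theorem mk_a (a b c d : F) : (mk a b c d).a = a := rfl
@[simp] theorem mk_b (a b c d : F) : (mk a b c d).b = b := rfl
@[simp] theorem mk_c (a b c d : F) : (mk a b c d).c = c := rfl
@[simp] theorem mk_d (a b c d : F) : (mk a b c d).d = d := rfl

theorem Alg.ext' {x y : Alg F} (h1 : x.a = y.a) (h2 : x.b = y.b) (h3 : x.c = y.c)
    (h4 : x.d = y.d) : x = y :=
  Prod.ext h1 (Prod.ext h2 (Prod.ext h3 h4))

@[simp] theorem zero_a : (0 : Alg F).a = 0 := rfl
@[simp] theorem zero_b : (0 : Alg F).b = 0 := rfl
@[simp] theorem zero_c : (0 : Alg F).c = 0 := rfl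
@[simp] theorem zero_d : (0 : Alg F).d = 0 := rfl
@[simp] theorem add_a (x y : Alg F) : (x + y).a = x.a + y.a := rfl
@[simp] theorem add_b (x y : Alg F) : (x + y).b = x.b + y.b := rfl
@[simp] theorem add_c (x y : Alg F) : (x + y).c = x.c + y.c := rfl
@[simp] theorem add_d (x y : Alg F) : (x + y).d = x.d + y.d := rfl
@[simp] theorem smul_a (t : F) (x : Alg F) : (t • x).a = t * x.a := rfl
@[simp] theorem smul_b (t : F) (x : Alg F) : (t • x).b = t * x.b := rfl
@[simp] theorem smul_c (t : F) (x : Alg F) : (t • x).c = t * x.c := rfl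
@[simp] theorem smul_d (t : F) (x : Alg F) : (t • x).d = t * x.d := rfl

instance : Mul (Alg F) :=
  ⟨fun x y => mk (x.a * y.a) (x.a * y.b + x.b * y.a) (x.a * y.c + x.c * y.a + x.b * y.b)
    (x.a * y.d + x.d * y.a + x.c * y.b)⟩

instance : One (Alg F) := ⟨mk 1 0 0 0⟩

@[simp] theorem one_a : (1 : Alg F).a = 1 := rfl
@[simp] theorem one_b : (1 : Alg F).b = 0 := rfl
@[simp] theorem one_c : (1 : Alg F).c = 0 := rfl
@[simp] theorem one_d : (1 : Alg F).d = 0 := rfl
@[simp] theorem mul_a (x y : Alg F) : (x * y).a = x.a * y.a := rfl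
@[simp] theorem mul_b (x y : Alg F) : (x * y).b = x.a * y.b + x.b * y.a := rfl
@[simp] theorem mul_c (x y : Alg F) : (x * y).c = x.a * y.c + x.c * y.a + x.b * y.b := rfl
@[simp] theorem mul_d (x y : Alg F) : (x * y).d = x.a * y.d + x.d * y.a + x.c * y.b := rfl

instance : NonAssocRing (Alg F) :=
  { (inferInstance : AddCommGroup (Alg F)), (inferInstance : Mul (Alg F)),
    (inferInstance : One (Alg F)) with
    left_distrib := fun x y z => by apply Alg.ext' <;> simp <;> ring
    right_distrib := fun x y z => by apply Alg.ext' <;> simp <;> ring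
    zero_mul := fun x => by apply Alg.ext' <;> simp
    mul_zero := fun x => by apply Alg.ext' <;> simp
    one_mul := fun x => by apply Alg.ext' <;> simp
    mul_one := fun x => by apply Alg.ext' <;> simp }

instance : IsScalarTower F (Alg F) (Alg F) :=
  ⟨fun t x y => by simp only [smul_eq_mul]; apply Alg.ext' <;> simp <;> ring⟩

instance : SMulCommClass F (Alg F) (Alg F) :=
  ⟨fun t x y => by simp only [smul_eq_mul]; apply Alg.ext' <;> simp <;> ring⟩

theorem finrank_Alg : Module.finrank F (Alg F) = 4 := by
  have : Module.finrank F (F × F × F × F) = 4 := by simp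
  exact this

/-- The nucleus consists of the elements without `r`-coordinate. -/
theorem mem_nucleus_iff (x : Alg F) : x ∈ nucleus (Alg F) ↔ x.b = 0 := by
  constructor
  · intro h
    have h1 := (h (mk 0 1 0 0) (mk 0 1 0 0)).1
    have h2 := congrArg Alg.d h1
    simpa using h2
  · intro h a b
    refine ⟨?_, ?_, ?_⟩ <;> apply Alg.ext' <;> simp [h] <;> ring

/-- Over every field `F` there is a unital not necessarily associative `F`-algebra of dimension `4`
which is left `N`-essential but not right `N`-essential. -/
theorem result (F : Type u) [Field F] :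
    ∃ (R : Type u) (_ : NonAssocRing R) (_ : Module F R) (_ : IsScalarTower F R R)
      (_ : SMulCommClass F R R), Module.finrank F R = 4 ∧
      LeftNEssential R ∧ ¬ RightNEssential R := by
  refine ⟨Alg F, inferInstance, inferInstance, inferInstance, inferInstance, finrank_Alg, ?_, ?_⟩
  · intro r hr
    by_cases hb : r.b = 0
    · refine ⟨1, ?_, ?_, ?_⟩
      · rw [mem_nucleus_iff]; rfl
      · rw [mem_nucleus_iff]; simp [hb]
      · rwa [one_mul]
    · refine ⟨mk 0 0 1 0, ?_, ?_, ?_⟩
      · rw [mem_nucleus_iff]; rfl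
      · rw [mem_nucleus_iff]; simp
      · intro h
        have h2 := congrArg Alg.d h
        simp at h2
        exact hb h2
  · intro h
    have hr : (mk 0 1 0 0 : Alg F) ≠ 0 := by
      intro h0
      have h1 := congrArg Alg.b h0
      simp at h1
    obtain ⟨x, hx, hx1, hx2⟩ := h (mk 0 1 0 0) hr
    rw [mem_nucleus_iff] at hx hx1
    simp at hx1
    apply hx2
    apply Alg.ext' <;> simp [hx, hx1]

end Pool.Agent.Results.MP_0af3ab_al.LeftNotRight
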